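import Pool.Agent.W503.KK.Low

/-!
# Project KK: the likelihood ratio
-/

set_option autoImplicit false

namespace Pool.Agent.W503.KK

open MeasureTheory ProbabilityTheory

variable {n l : ℕ}

theorem esymm2 {ι : Type} [DecidableEq ι] (w : ι → ℝ) (s : Finset ι) :
    2 * ∑ S ∈ Finset.powersetCard 2 s, ∏ i ∈ S, w i = (∑ i ∈ s, w i) ^ 2 - ∑ i ∈ s, w i ^ 2 := by
  induction s using Finset.induction_on with
  | empty =>
    rw [Finset.powersetCard_eq_empty.2 (by simp)]
    simp
  | insert x s hx ih =>
    rw [Finset.powersetCard_succ_insert hx, Finset.sum_union, Finset.sum_image,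
      Finset.sum_insert hx, Finset.sum_insert hx, mul_add, ih]
    · have h1 : ∑ T ∈ Finset.powersetCard 1 s, ∏ i ∈ insert x T, w i = w x * ∑ i ∈ s, w i := by
        rw [Finset.powersetCard_one, Finset.sum_map, Finset.mul_sum]
        refine Finset.sum_congr rfl fun i hi => ?_
        simp only [Function.Embedding.coeFn_mk]
        rw [Finset.prod_insert, Finset.prod_singleton]
        intro h
        rw [Finset.mem_singleton] at h
        exact hx (h ▸ hi)
      rw [h1]
      ring
    · intro T hT T' hT' h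
      have hT1 := (Finset.mem_powersetCard.1 hT).1
      have hT2 := (Finset.mem_powersetCard.1 hT').1
      have h' : insert x T = insert x T' := h
      have e1 : (insert x T).erase x = T := Finset.erase_insert (fun h => hx (hT1 h))
      have e2 : (insert x T').erase x = T' := Finset.erase_insert (fun h => hx (hT2 h))
      rw [← e1, ← e2, h']
    · rw [Finset.disjoint_left]
      intro T hT hT'
      obtain ⟨T', _, rfl⟩ := Finset.mem_image.1 hT'
      exact hx ((Finset.mem_powersetCard.1 hT).1 (Finset.mem_insert_self x T'))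

/-- signal -/
noncomputable def sig (lam : ℝ) (x : Fin n → Bool) (S : Finset (Fin n)) : ℝ :=
  if S.card = 2 then lam * chi x S else 0

theorem chi_mul (x y : Fin n → Bool) (S : Finset (Fin n)) :
    chi x S * chi y S = chi (fun i => x i == y i) S := by
  rw [chi, chi, chi, ← Finset.prod_mul_distrib]
  refine Finset.prod_congr rfl fun i _ => ?_
  cases x i <;> cases y i <;> simp [sgb]

theorem overlap (lam : ℝ) (x y : Fin n → Bool) :
    ∑ S, sig lam x S * sig lam y S =
      lam ^ 2 * ((∑ i, sgb (x i == y i)) ^ 2 - n) / 2 := by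
  have h1 : ∑ S, sig lam x S * sig lam y S =
      ∑ S ∈ Finset.powersetCard 2 (Finset.univ : Finset (Fin n)),
        lam ^ 2 * ∏ i ∈ S, sgb (x i == y i) := by
    have e : Finset.powersetCard 2 (Finset.univ : Finset (Fin n)) =
        Finset.univ.filter (fun S => S.card = 2) := by
      ext S; simp
    rw [e, Finset.sum_filter]
    refine Finset.sum_congr rfl fun S _ => ?_
    unfold sig
    split_ifs
    · have := chi_mul x y S
      calc lam * chi x S * (lam * chi y S) = lam ^ 2 * (chi x S * chi y S) := by ring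
        _ = _ := by rw [this]; rfl
    · ring
  rw [h1, ← Finset.mul_sum]
  have h2 := esymm2 (fun i => sgb (x i == y i)) (Finset.univ : Finset (Fin n))
  have h3 : ∑ i : Fin n, sgb (x i == y i) ^ 2 = n := by
    simp [sq, sgb_sq]
  rw [h3] at h2
  rw [← h2]
  ring

/-- likelihood ratio of one signal -/
noncomputable def Lx {ι : Type} [Fintype ι] (a : ι → ℝ) (z : ι → ℝ) : ℝ :=
  Real.exp (∑ i, (a i * z i - a i ^ 2 / 2))

theorem Lx_cont {ι : Type} [Fintype ι] (a : ι → ℝ) : Continuous (Lx a) := by
  unfold Lx; fun_prop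

theorem Lx_mul {ι : Type} [Fintype ι] (a b z : ι → ℝ) :
    Lx a z * Lx b z = Real.exp (-∑ i, (a i ^ 2 + b i ^ 2) / 2) *
      Real.exp (∑ i, (fun i => a i + b i) i * z i) := by
  unfold Lx
  rw [← Real.exp_add, ← Real.exp_add]
  congr 1
  rw [← Finset.sum_add_distrib, ← Finset.sum_neg_distrib, ← Finset.sum_add_distrib]
  refine Finset.sum_congr rfl fun i _ => ?_
  ring

theorem Lx_mul_int (hM : S_MGF) {ι : Type} [Fintype ι] (a b : ι → ℝ) :
    Integrable (fun z => Lx a z * Lx b z) (GG ι) := by
  simp only [Lx_mul]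
  exact ((hM ι (fun i => a i + b i)).1).const_mul _

theorem Lx_mul_val (hM : S_MGF) {ι : Type} [Fintype ι] (a b : ι → ℝ) :
    ∫ z, Lx a z * Lx b z ∂(GG ι) = Real.exp (∑ i, a i * b i) := by
  simp only [Lx_mul]
  rw [integral_const_mul, (hM ι (fun i => a i + b i)).2, ← Real.exp_add]
  congr 1
  rw [← Finset.sum_neg_distrib, ← Finset.sum_add_distrib]
  refine Finset.sum_congr rfl fun i _ => ?_
  ring

theorem Lx_memLp (hM : S_MGF) {ι : Type} [Fintype ι] (a : ι → ℝ) : MemLp (Lx a) 2 (GG ι) := by
  rw [memLp_two_iff_integrable_sq (Lx_cont a).aestronglyMeasurable]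
  have h := Lx_mul_int hM a a
  refine h.congr (Filter.Eventually.of_forall fun z => ?_)
  simp only [sq]

theorem Lx_one (hM : S_MGF) {ι : Type} [Fintype ι] (a : ι → ℝ) : ∫ z, Lx a z ∂(GG ι) = 1 := by
  have h := Lx_mul_val hM a (fun _ => 0)
  have e : ∀ z : ι → ℝ, Lx (fun _ : ι => (0:ℝ)) z = 1 := by
    intro z; simp [Lx]
  simp only [e, mul_one, mul_zero, Finset.sum_const_zero, Real.exp_zero] at h
  exact h

/-- averaged likelihood ratio -/
noncomputable def LL (n : ℕ) (lam : ℝ) (z : Finset (Fin n) → ℝ) : ℝ :=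
  (1 / 2 ^ n : ℝ) * ∑ x : Fin n → Bool, Lx (sig lam x) z

theorem LL_memLp (hM : S_MGF) (n : ℕ) (lam : ℝ) : MemLp (LL n lam) 2 (GG (Finset (Fin n))) := by
  unfold LL
  refine MemLp.const_mul ?_ _
  exact memLp_finsetSum Finset.univ fun x _ => Lx_memLp hM _

theorem card_cube (n : ℕ) : (Finset.univ : Finset (Fin n → Bool)).card = 2 ^ n := by
  simp

theorem LL_one (hM : S_MGF) (n : ℕ) (lam : ℝ) : ∫ z, LL n lam z ∂(GG (Finset (Fin n))) = 1 := by
  unfold LL
  rw [integral_const_mul, integral_finsetSum _ fun x _ => (Lx_memLp hM _).integrable (by norm_num)]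
  simp only [Lx_one hM, Finset.sum_const, card_cube, nsmul_eq_mul]
  push_cast
  field_simp

theorem eq_invol (x : Fin n → Bool) :
    Function.Involutive (fun (y : Fin n → Bool) i => x i == y i) := by
  intro y
  funext i
  cases h : x i <;> cases h' : y i <;> simp [h, h']

theorem LL_sq (hM : S_MGF) (hR : S_RAD) (n : ℕ) (hn : 1 ≤ n) (lam : ℝ)
    (hlam : lam ^ 2 = 1 / (4 * n)) :
    ∫ z, LL n lam z * LL n lam z ∂(GG (Finset (Fin n))) ≤ 2 := by
  have hn0 : (0:ℝ) < n := by exact_mod_cast hn
  have h1 : ∀ z, LL n lam z * LL n lam z = (1 / 2 ^ n : ℝ) * ((1 / 2 ^ n : ℝ) *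
      ∑ x : Fin n → Bool, ∑ y : Fin n → Bool, Lx (sig lam x) z * Lx (sig lam y) z) := by
    intro z
    unfold LL
    rw [← Finset.sum_mul_sum]
    ring
  simp only [h1]
  rw [integral_const_mul, integral_const_mul,
    integral_finsetSum _ fun x _ => integrable_finsetSum _ fun y _ => Lx_mul_int hM _ _]
  have h2 : ∀ x : Fin n → Bool,
      ∫ z, ∑ y : Fin n → Bool, Lx (sig lam x) z * Lx (sig lam y) z ∂(GG (Finset (Fin n))) ≤
      ∑ w : Fin n → Bool, Real.exp ((∑ i, (if w i then (1:ℝ) else -1)) ^ 2 / (8 * n)) := by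
    intro x
    rw [integral_finsetSum _ fun y _ => Lx_mul_int hM _ _]
    simp only [Lx_mul_val hM, overlap]
    rw [← Equiv.sum_comp (eq_invol x).toPerm
      (fun w : Fin n → Bool => Real.exp ((∑ i, (if w i then (1:ℝ) else -1)) ^ 2 / (8 * n)))]
    refine Finset.sum_le_sum fun y _ => ?_
    rw [Real.exp_le_exp, hlam]
    change _ ≤ (∑ i, sgb (x i == y i)) ^ 2 / (8 * n)
    set q := (∑ i, sgb (x i == y i)) ^ 2
    rw [div_mul_eq_mul_div, div_div, div_le_div_iff₀ (by positivity) (by positivity)]
    nlinarith [hn0]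
  have h3 : (1 / 2 ^ n : ℝ) * ∑ x : Fin n → Bool,
      ∫ z, ∑ y : Fin n → Bool, Lx (sig lam x) z * Lx (sig lam y) z ∂(GG (Finset (Fin n))) ≤
      ∑ w : Fin n → Bool, Real.exp ((∑ i, (if w i then (1:ℝ) else -1)) ^ 2 / (8 * n)) := by
    have := Finset.sum_le_sum fun x (_ : x ∈ (Finset.univ : Finset (Fin n → Bool))) => h2 x
    rw [Finset.sum_const, card_cube, nsmul_eq_mul] at this
    push_cast at this
    rw [one_div, inv_mul_le_iff₀ (by positivity)]
    exact this
  calc _ ≤ (1 / 2 ^ n : ℝ) * ∑ w : Fin n → Bool,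
      Real.exp ((∑ i, (if w i then (1:ℝ) else -1)) ^ 2 / (8 * n)) :=
        mul_le_mul_of_nonneg_left h3 (by positivity)
    _ ≤ 2 := hR n hn

/-- change of the mean of a nonnegative function -/
theorem mean_diff (hC : S_CM) (hM : S_MGF) (hR : S_RAD) (n : ℕ) (hn : 1 ≤ n) (lam : ℝ)
    (hlam : lam ^ 2 = 1 / (4 * n)) (l : ℕ) [Nonempty (Ks n l)] (V s : ℝ) (hs : 0 < s)
    (hV : ∫ z, (top n l z - ∫ w, top n l w ∂(GG (Finset (Fin n)))) ^ 2 ∂(GG (Finset (Fin n))) ≤ V) :
    ∫ z, top n l (fun S => lam + z S) ∂(GG (Finset (Fin n))) -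
      ∫ z, top n l z ∂(GG (Finset (Fin n))) ≤ V / (2 * s) + s / 2 := by
  set P := GG (Finset (Fin n)) with hP
  set m := ∫ w, top n l w ∂P with hm
  have hf : MemLp (top n l) 2 P := top_memLp
  have hL : MemLp (LL n lam) 2 P := LL_memLp hM n lam
  have hfi := hf.integrable (by norm_num)
  have hLi := hL.integrable (by norm_num)
  have hfL : Integrable (fun z => top n l z * LL n lam z) P := hf.integrable_mul hL
  have h1 : ∫ z, top n l (fun S => lam + z S) ∂P = ∫ z, top n l z * LL n lam z ∂P := by
    have hx : ∀ x : Fin n → Bool, ∫ z, top n l z * Lx (sig lam x) z ∂P =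
        ∫ z, top n l (fun S => lam + z S) ∂P := by
      intro x
      rw [← int_signal x lam]
      exact (hC (Finset (Fin n)) (sig lam x) (top n l)).symm
    have e : ∀ z, top n l z * LL n lam z =
        (1 / 2 ^ n : ℝ) * ∑ x : Fin n → Bool, top n l z * Lx (sig lam x) z := by
      intro z
      rw [LL, ← Finset.mul_sum]
      ring
    simp only [e]
    have hi : ∀ x : Fin n → Bool, Integrable (fun z => top n l z * Lx (sig lam x) z) P :=
      fun x => hf.integrable_mul (Lx_memLp hM (sig lam x))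
    rw [integral_const_mul, integral_finsetSum _ fun x _ => hi x]
    simp only [hx, Finset.sum_const, card_cube, nsmul_eq_mul]
    push_cast
    field_simp
  have h2 : ∫ z, (top n l z - m) * (LL n lam z - 1) ∂P =
      ∫ z, top n l z * LL n lam z ∂P - m := by
    have e : ∀ z, (top n l z - m) * (LL n lam z - 1) =
        (top n l z * LL n lam z - top n l z) - (m * LL n lam z - m) := by
      intro z; ring
    simp only [e]
    have i1 : Integrable (fun z => top n l z * LL n lam z - top n l z) P := hfL.sub hfi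
    have i2 : Integrable (fun z => m * LL n lam z - m) P :=
      (hLi.const_mul m).sub (integrable_const m)
    rw [integral_sub i1 i2,
      integral_sub hfL hfi, integral_sub (hLi.const_mul m) (integrable_const m),
      integral_const_mul, LL_one hM]
    simp [← hm]
  have hfm : MemLp (fun z => top n l z - m) 2 P := hf.sub (memLp_const m)
  have hL1 : MemLp (fun z => LL n lam z - 1) 2 P := hL.sub (memLp_const 1)
  have h3 : ∫ z, (LL n lam z - 1) ^ 2 ∂P ≤ 1 := by
    have e : ∀ z, (LL n lam z - 1) ^ 2 = (LL n lam z * LL n lam z - 2 * LL n lam z) + 1 := by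
      intro z; ring
    simp only [e]
    have hLL : Integrable (fun z => LL n lam z * LL n lam z) P := hL.integrable_mul hL
    have i3 : Integrable (fun z => LL n lam z * LL n lam z - 2 * LL n lam z) P :=
      hLL.sub (hLi.const_mul 2)
    rw [integral_add i3 (integrable_const 1),
      integral_sub hLL (hLi.const_mul 2), integral_const_mul, LL_one hM]
    have := LL_sq hM hR n hn lam hlam
    simp only [integral_const, probReal_univ, smul_eq_mul, mul_one]
    rw [← hP] at this
    linarith
  have h4 : ∫ z, (top n l z - m) * (LL n lam z - 1) ∂P ≤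
      ∫ z, ((1 / (2 * s)) * (top n l z - m) ^ 2 + (s / 2) * (LL n lam z - 1) ^ 2) ∂P := by
    refine integral_mono (hfm.integrable_mul hL1)
      ((hfm.integrable_sq.const_mul _).add (hL1.integrable_sq.const_mul _)) fun z => ?_
    simp only
    set u := top n l z - m
    set v := LL n lam z - 1
    have : (1 / (2 * s)) * u ^ 2 + (s / 2) * v ^ 2 - u * v = (u - s * v) ^ 2 / (2 * s) := by
      field_simp
      ring
    have h5 : 0 ≤ (u - s * v) ^ 2 / (2 * s) := by positivity
    linarith
  rw [integral_add (hfm.integrable_sq.const_mul _) (hL1.integrable_sq.const_mul _),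
    integral_const_mul, integral_const_mul] at h4
  rw [h1]
  have h6 : (1 / (2 * s)) * ∫ z, (top n l z - m) ^ 2 ∂P ≤ V / (2 * s) := by
    rw [div_mul_eq_mul_div, one_mul]
    exact div_le_div_of_nonneg_right hV (by positivity)
  have h7 : (s / 2) * ∫ z, (LL n lam z - 1) ^ 2 ∂P ≤ s / 2 := by
    calc _ ≤ (s / 2) * 1 := mul_le_mul_of_nonneg_left h3 (by positivity)
      _ = _ := mul_one _
  linarith

end Pool.Agent.W503.KK
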