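import Pool.Agent.W503.KK.Coef
import Pool.Agent.W503.KK.Lr

/-!
# Project KK: conclusion
-/

set_option autoImplicit false

namespace Pool.Agent.W503.KK

open MeasureTheory ProbabilityTheory

variable {n l : ℕ}

theorem var_le (hVar : S_VAR) [Nonempty (Ks n l)] (T : ℝ) (hT : 0 < T) :
    ∫ z, (top n l z - ∫ w, top n l w ∂(GG (Finset (Fin n)))) ^ 2 ∂(GG (Finset (Fin n))) ≤
      (4 * (l:ℝ) ^ 2) * (1 + T + (n:ℝ) ^ 2 * m8 / T ^ 3) := by
  classical
  have h := hVar (Finset (Fin n)) (Finset.univ.filter fun S => S.card = 2) (top n l)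
    (4 * (l:ℝ) ^ 2) top_cont top_nonneg ⟨_, top_growth⟩ ?_ T hT
  · refine h.trans ?_
    refine mul_le_mul_of_nonneg_left ?_ (by positivity)
    have hm8 : 0 ≤ m8 := integral_nonneg fun x => by positivity
    have hc : ((Finset.univ.filter fun S : Finset (Fin n) => S.card = 2).card : ℝ) ≤ (n:ℝ) ^ 2 := by
      have e : (Finset.univ.filter fun S : Finset (Fin n) => S.card = 2) =
          Finset.powersetCard 2 (Finset.univ : Finset (Fin n)) := by
        ext S; simp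
      rw [e, Finset.card_powersetCard, Finset.card_univ, Fintype.card_fin]
      exact_mod_cast Nat.choose_le_pow n 2
    have h2 : ((Finset.univ.filter fun S : Finset (Fin n) => S.card = 2).card : ℝ) * m8 / T ^ 3 ≤
        (n:ℝ) ^ 2 * m8 / T ^ 3 :=
      div_le_div_of_nonneg_right (mul_le_mul_of_nonneg_right hc hm8) (by positivity)
    linarith
  · intro z
    obtain ⟨v, hv, hB⟩ := top_sub (l := l) z
    refine ⟨cf v, ?_, sum_cf_sq v hv, ?_⟩
    · intro S hS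
      apply cf_off
      intro h
      exact hS (by simp [h])
    · intro S t
      refine (hB (Function.update z S t)).trans ?_
      rw [Finset.sum_eq_single S]
      · rw [Function.update_self, ← abs_mul, mul_comm (cf v S)]
        exact le_abs_self _
      · intro S' _ hS'
        rw [Function.update_of_ne hS', sub_self, zero_mul]
      · intro h; exact absurd (Finset.mem_univ _) h

/-- the ratio at `n = k ^ 4` -/
theorem ratio_false (hC : S_CM) (hM : S_MGF) (hR : S_RAD) (hVar : S_VAR)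
    (l : ℕ) (hl : 1 ≤ l) (eps : ℝ) (heps : 0 < eps) :
    ∀ᶠ k : ℕ in Filter.atTop, ¬ (1 + eps ≤
      (∫ z, top (k ^ 4) l (fun S => 1 / (2 * (k:ℝ) ^ 2) + z S) ∂(GG (Finset (Fin (k ^ 4))))) /
      (∫ z, top (k ^ 4) l z ∂(GG (Finset (Fin (k ^ 4)))))) := by
  have hm8 : 0 ≤ m8 := integral_nonneg fun x => by positivity
  have hc1 := c1_pos
  set D : ℝ := (4 * (l:ℝ) ^ 2) * (2 + m8) with hD
  have hD0 : 0 ≤ D := by positivity
  obtain ⟨N, hN⟩ := exists_nat_gt ((D + 1) / (eps * c1))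
  filter_upwards [Filter.eventually_ge_atTop (N + 2 * l + 1)] with k hk
  have hk1 : 1 ≤ k := by omega
  have hk0 : (0:ℝ) < k := by exact_mod_cast hk1
  have hk1' : (1:ℝ) ≤ k := by exact_mod_cast hk1
  have hkl : 2 * l ≤ k := by omega
  have hkN : (N:ℝ) ≤ k := by exact_mod_cast (by omega : N ≤ k)
  have hk4 : k ≤ k ^ 4 := Nat.le_self_pow (by norm_num) k
  have hn1 : 1 ≤ k ^ 4 := by omega
  have hln : l < k ^ 4 := by omega
  set n := k ^ 4 with hn
  have : Nonempty (Ks n l) := by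
    obtain ⟨S, hS, hS2⟩ := Finset.exists_subset_card_eq (s := (Finset.univ : Finset (Fin n)))
      (n := l) (by simp; omega)
    exact ⟨⟨S, hS2⟩⟩
  have hncast : (n:ℝ) = (k:ℝ) ^ 4 := by rw [hn]; push_cast; ring
  have hlam : (1 / (2 * (k:ℝ) ^ 2)) ^ 2 = 1 / (4 * (n:ℝ)) := by
    rw [hncast]
    field_simp
    ring
  have hV := var_le (n := n) (l := l) hVar ((k:ℝ) ^ 2) (by positivity)
  have hV2 : (4 * (l:ℝ) ^ 2) * (1 + (k:ℝ) ^ 2 + (n:ℝ) ^ 2 * m8 / ((k:ℝ) ^ 2) ^ 3) ≤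
      D * (k:ℝ) ^ 2 := by
    have e : (n:ℝ) ^ 2 * m8 / ((k:ℝ) ^ 2) ^ 3 = m8 * (k:ℝ) ^ 2 := by
      rw [hncast]
      field_simp
    rw [e, hD, mul_assoc (4 * (l:ℝ) ^ 2) (2 + m8) ((k:ℝ) ^ 2)]
    have h0 : (0:ℝ) ≤ 4 * (l:ℝ) ^ 2 := by positivity
    refine mul_le_mul_of_nonneg_left ?_ h0
    have : (1:ℝ) ≤ (k:ℝ) ^ 2 := one_le_pow₀ hk1'
    nlinarith
  have hdiff := mean_diff hC hM hR n hn1 (1 / (2 * (k:ℝ) ^ 2)) hlam l (D * (k:ℝ) ^ 2) k hk0
    (hV.trans hV2)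
  have e1 : D * (k:ℝ) ^ 2 / (2 * k) + k / 2 = (D + 1) / 2 * k := by
    field_simp
  rw [e1] at hdiff
  have hlow := mean_lower' (n := n) hl hln
  set E0 := ∫ z, top n l z ∂(GG (Finset (Fin n))) with hE0
  set E1 := ∫ z, top n l (fun S => 1 / (2 * (k:ℝ) ^ 2) + z S) ∂(GG (Finset (Fin n))) with hE1
  have hsq : (k:ℝ) ^ 2 / 2 ≤ Real.sqrt ((n:ℝ) - l) := by
    apply Real.le_sqrt_of_sq_le
    rw [hncast]
    have h1 : (2:ℝ) * l ≤ k := by exact_mod_cast hkl
    have h2 : (k:ℝ) ≤ (k:ℝ) ^ 4 := by exact_mod_cast hk4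
    nlinarith
  have hE0low : c1 * ((k:ℝ) ^ 2 / 2) ≤ E0 :=
    (mul_le_mul_of_nonneg_left hsq hc1.le).trans hlow
  have hE0pos : 0 < E0 := lt_of_lt_of_le (by positivity) hE0low
  intro hcon
  rw [le_div_iff₀ hE0pos] at hcon
  have h3 : eps * E0 ≤ (D + 1) / 2 * k := by nlinarith
  have h4 : eps * (c1 * ((k:ℝ) ^ 2 / 2)) ≤ (D + 1) / 2 * k :=
    (mul_le_mul_of_nonneg_left hE0low heps.le).trans h3
  have h5 : eps * c1 * k ≤ D + 1 := by
    have : (eps * c1 * k) * k ≤ (D + 1) * k := by nlinarith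
    exact le_of_mul_le_mul_right this hk0
  have h6 : D + 1 < eps * c1 * k := by
    rw [div_lt_iff₀ (by positivity)] at hN
    have : (N:ℝ) * (eps * c1) ≤ k * (eps * c1) :=
      mul_le_mul_of_nonneg_right hkN (by positivity)
    linarith
  linarith

theorem sSup_eq_top (n l : ℕ) (A : Finset (Fin n) → ℝ) :
    sSup {t : ℝ | ∃ v : {K : Finset (Fin n) // K.card = l} → ℝ,
      dotProduct v v = 1 ∧
      t = dotProduct v (Matrix.mulVec
        (Matrix.of fun I J : {K : Finset (Fin n) // K.card = l} =>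
          if (symmDiff I.1 J.1).card = 2 then A (symmDiff I.1 J.1) else 0) v)} = top n l A := rfl

theorem rpow_k (k : ℕ) (hk : 1 ≤ k) :
    (1 / 2 : ℝ) * ((k ^ 4 : ℕ) : ℝ) ^ (-((2:ℕ) : ℝ) / 4) = 1 / (2 * (k:ℝ) ^ 2) := by
  have hk0 : (0:ℝ) < k := by exact_mod_cast hk
  have e : ((k ^ 4 : ℕ) : ℝ) ^ (-((2:ℕ) : ℝ) / 4) = ((k:ℝ) ^ 2)⁻¹ := by
    push_cast
    rw [← Real.rpow_natCast, ← Real.rpow_natCast, ← Real.rpow_mul hk0.le, ← Real.rpow_neg hk0.le]
    congr 1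
    norm_num
  rw [e]
  field_simp

end Pool.Agent.W503.KK
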