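import Pool.Agent.W503.KK.Top

/-!
# Project KK: the sum of the squares of the coefficients
-/

set_option autoImplicit false

namespace Pool.Agent.W503.KK

open MeasureTheory ProbabilityTheory

variable {n l : ℕ}

noncomputable def pp (v : Ks n l → ℝ) (i : Fin n) : ℝ :=
  ∑ I ∈ (Finset.univ : Finset (Ks n l)).filter (fun I => i ∈ I.1), v I ^ 2

theorem pp_nonneg (v : Ks n l → ℝ) (i : Fin n) : 0 ≤ pp v i :=
  Finset.sum_nonneg fun _ _ => sq_nonneg _

theorem sum_pp (v : Ks n l → ℝ) (hv : dotProduct v v = 1) : ∑ i, pp v i = l := by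
  simp only [pp, Finset.sum_filter]
  rw [Finset.sum_comm]
  have h : ∀ I : Ks n l, ∑ i, (if i ∈ I.1 then v I ^ 2 else 0) = l * (v I * v I) := by
    intro I
    rw [← Finset.sum_filter, Finset.sum_const, nsmul_eq_mul]
    have : (Finset.univ.filter fun i => i ∈ I.1) = I.1 := by ext; simp
    rw [this, I.2, sq]
  simp only [h]
  rw [← Finset.mul_sum]
  have : ∑ I, v I * v I = 1 := hv
  rw [this, mul_one]

/-- pairs `(I, J)` with `J = I - i + j` -/
def PP (n l : ℕ) (i j : Fin n) : Finset (Ks n l × Ks n l) :=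
  Finset.univ.filter fun x => symmDiff x.1.1 x.2.1 = {i, j} ∧ i ∈ x.1.1 ∧ j ∈ x.2.1

theorem PP_fst (v : Ks n l → ℝ) (i j : Fin n) :
    ∑ x ∈ PP n l i j, |v x.1| ^ 2 ≤ pp v i := by
  have hinj : Set.InjOn (fun x : Ks n l × Ks n l => x.1) (PP n l i j) := by
    intro x hx y hy hxy
    simp only [PP, Finset.coe_filter, Finset.mem_univ, true_and, Set.mem_setOf_eq] at hx hy
    have h1 : x.1 = y.1 := hxy
    refine Prod.ext h1 ?_
    apply Subtype.ext
    have h2 : symmDiff x.1.1 x.2.1 = symmDiff x.1.1 y.2.1 := by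
      rw [hx.1, h1, hy.1]
    exact symmDiff_right_injective _ h2
  have e : ∑ x ∈ PP n l i j, |v x.1| ^ 2 = ∑ I ∈ (PP n l i j).image (fun x => x.1), |v I| ^ 2 := by
    rw [Finset.sum_image hinj]
  rw [e]
  simp only [sq_abs]
  refine Finset.sum_le_sum_of_subset_of_nonneg ?_ fun _ _ _ => sq_nonneg _
  intro I hI
  simp only [Finset.mem_image, PP, Finset.mem_filter, Finset.mem_univ, true_and] at hI ⊢
  obtain ⟨x, hx, rfl⟩ := hI
  exact hx.2.1

theorem PP_snd (v : Ks n l → ℝ) (i j : Fin n) :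
    ∑ x ∈ PP n l i j, |v x.2| ^ 2 ≤ pp v j := by
  have hinj : Set.InjOn (fun x : Ks n l × Ks n l => x.2) (PP n l i j) := by
    intro x hx y hy hxy
    simp only [PP, Finset.coe_filter, Finset.mem_univ, true_and, Set.mem_setOf_eq] at hx hy
    have h1 : x.2 = y.2 := hxy
    refine Prod.ext ?_ h1
    apply Subtype.ext
    have h2 : symmDiff x.1.1 x.2.1 = symmDiff y.1.1 x.2.1 := by
      rw [hx.1, h1, hy.1]
    exact symmDiff_left_injective _ h2
  have e : ∑ x ∈ PP n l i j, |v x.2| ^ 2 = ∑ I ∈ (PP n l i j).image (fun x => x.2), |v I| ^ 2 := by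
    rw [Finset.sum_image hinj]
  rw [e]
  simp only [sq_abs]
  refine Finset.sum_le_sum_of_subset_of_nonneg ?_ fun _ _ _ => sq_nonneg _
  intro I hI
  simp only [Finset.mem_image, PP, Finset.mem_filter, Finset.mem_univ, true_and] at hI ⊢
  obtain ⟨x, hx, rfl⟩ := hI
  exact hx.2.2

noncomputable def TT (v : Ks n l → ℝ) (i j : Fin n) : ℝ := ∑ x ∈ PP n l i j, |v x.1| * |v x.2|

theorem TT_sq (v : Ks n l → ℝ) (i j : Fin n) : TT v i j ^ 2 ≤ pp v i * pp v j := by
  refine (Finset.sum_mul_sq_le_sq_mul_sq _ _ _).trans ?_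
  exact mul_le_mul (PP_fst v i j) (PP_snd v i j) (Finset.sum_nonneg fun _ _ => by positivity)
    (pp_nonneg v i)

theorem TT_nonneg (v : Ks n l → ℝ) (i j : Fin n) : 0 ≤ TT v i j :=
  Finset.sum_nonneg fun _ _ => by positivity

theorem split_pair {I J : Finset (Fin n)} (hI : I.card = l) (hJ : J.card = l) {i j : Fin n}
    (hij : i ≠ j) (h : symmDiff I J = {i, j}) : (i ∈ I ∧ j ∈ J) ∨ (j ∈ I ∧ i ∈ J) := by
  have hc : (I \ J).card = (J \ I).card := by
    have h1 := Finset.card_sdiff_add_card_inter I J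
    have h2 := Finset.card_sdiff_add_card_inter J I
    rw [Finset.inter_comm] at h2
    omega
  have hi : i ∈ symmDiff I J := by rw [h]; simp
  have hj : j ∈ symmDiff I J := by rw [h]; simp
  rw [Finset.mem_symmDiff] at hi hj
  rcases hi with ⟨hi1, hi2⟩ | ⟨hi1, hi2⟩
  · rcases hj with ⟨hj1, hj2⟩ | ⟨hj1, hj2⟩
    · exfalso
      have hpos : 0 < (J \ I).card := by
        rw [← hc]; exact Finset.card_pos.2 ⟨i, by simp [hi1, hi2]⟩
      obtain ⟨k, hk⟩ := Finset.card_pos.1 hpos
      rw [Finset.mem_sdiff] at hk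
      have hk2 : k ∈ symmDiff I J := by rw [Finset.mem_symmDiff]; right; exact hk
      rw [h] at hk2
      simp only [Finset.mem_insert, Finset.mem_singleton] at hk2
      rcases hk2 with rfl | rfl
      · exact hi2 hk.1
      · exact hj2 hk.1
    · left; exact ⟨hi1, hj1⟩
  · rcases hj with ⟨hj1, hj2⟩ | ⟨hj1, hj2⟩
    · right; exact ⟨hj1, hi1⟩
    · exfalso
      have hpos : 0 < (I \ J).card := by
        rw [hc]; exact Finset.card_pos.2 ⟨i, by simp [hi1, hi2]⟩
      obtain ⟨k, hk⟩ := Finset.card_pos.1 hpos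
      rw [Finset.mem_sdiff] at hk
      have hk2 : k ∈ symmDiff I J := by rw [Finset.mem_symmDiff]; left; exact hk
      rw [h] at hk2
      simp only [Finset.mem_insert, Finset.mem_singleton] at hk2
      rcases hk2 with rfl | rfl
      · exact hi2 hk.1
      · exact hj2 hk.1

theorem cf_pair (v : Ks n l → ℝ) {i j : Fin n} (hij : i ≠ j) :
    |cf v {i, j}| ≤ TT v i j + TT v j i := by
  have h1 : |cf v {i, j}| ≤ ∑ I : Ks n l, ∑ J : Ks n l,
      ((if symmDiff I.1 J.1 = {i, j} ∧ i ∈ I.1 ∧ j ∈ J.1 then |v I| * |v J| else 0) +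
      (if symmDiff I.1 J.1 = {j, i} ∧ j ∈ I.1 ∧ i ∈ J.1 then |v I| * |v J| else 0)) := by
    refine (Finset.abs_sum_le_sum_abs _ _).trans (Finset.sum_le_sum fun I _ => ?_)
    refine (Finset.abs_sum_le_sum_abs _ _).trans (Finset.sum_le_sum fun J _ => ?_)
    by_cases h : symmDiff I.1 J.1 = {i, j}
    · have h' : symmDiff I.1 J.1 = {j, i} := by rw [h, Finset.pair_comm]
      have hab : |(if symmDiff I.1 J.1 = {i, j} ∧ ({i, j} : Finset (Fin n)).card = 2 then
          v I * v J else 0)| ≤ |v I| * |v J| := by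
        split_ifs
        · rw [abs_mul]
        · rw [abs_zero]; positivity
      refine hab.trans ?_
      rcases split_pair I.2 J.2 hij h with h2 | h2
      · rw [if_pos ⟨h, h2⟩]
        refine le_add_of_nonneg_right ?_
        split_ifs <;> positivity
      · rw [if_pos (⟨h', h2⟩ : symmDiff I.1 J.1 = {j, i} ∧ j ∈ I.1 ∧ i ∈ J.1)]
        refine le_add_of_nonneg_left ?_
        split_ifs <;> positivity
    · rw [if_neg fun h' => h h'.1, abs_zero]
      refine add_nonneg ?_ ?_ <;> split_ifs <;> positivity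
  refine h1.trans (le_of_eq ?_)
  simp only [Finset.sum_add_distrib]
  congr 1
  · rw [TT, PP, Finset.sum_filter, Fintype.sum_prod_type]
  · rw [TT, PP, Finset.sum_filter, Fintype.sum_prod_type]

theorem cf_sq_pair (v : Ks n l → ℝ) {i j : Fin n} (hij : i ≠ j) :
    cf v {i, j} ^ 2 ≤ 4 * (pp v i * pp v j) := by
  have h1 := cf_pair v hij
  have h2 := TT_sq v i j
  have h3 := TT_sq v j i
  have h4 := TT_nonneg v i j
  have h5 := TT_nonneg v j i
  have h6 : cf v {i, j} ^ 2 ≤ (TT v i j + TT v j i) ^ 2 := by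
    rw [← sq_abs]
    exact pow_le_pow_left₀ (abs_nonneg _) h1 2
  nlinarith [sq_nonneg (TT v i j - TT v j i)]

theorem sum_cf_sq (v : Ks n l → ℝ) (hv : dotProduct v v = 1) :
    ∑ S, cf v S ^ 2 ≤ 4 * (l : ℝ) ^ 2 := by
  have h1 : ∀ S : Finset (Fin n), cf v S ^ 2 ≤
      ∑ i, ∑ j, if S = {i, j} then 4 * (pp v i * pp v j) else 0 := by
    intro S
    have hnn : ∀ i j, 0 ≤ (if S = {i, j} then 4 * (pp v i * pp v j) else 0) := by
      intro i j
      split_ifs
      · have := mul_nonneg (pp_nonneg v i) (pp_nonneg v j); linarith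
      · exact le_rfl
    by_cases hS : S.card = 2
    · obtain ⟨i, j, hij, rfl⟩ := Finset.card_eq_two.1 hS
      refine (cf_sq_pair v hij).trans ?_
      have e : 4 * (pp v i * pp v j) = (if ({i, j} : Finset (Fin n)) = {i, j} then
        4 * (pp v i * pp v j) else 0) := by rw [if_pos rfl]
      rw [e]
      refine (Finset.single_le_sum (f := fun j' => if ({i, j} : Finset (Fin n)) = {i, j'} then
        4 * (pp v i * pp v j') else 0) (fun j' _ => hnn i j') (Finset.mem_univ j)).trans ?_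
      exact Finset.single_le_sum (f := fun i' => ∑ j', if ({i, j} : Finset (Fin n)) = {i', j'} then
        4 * (pp v i' * pp v j') else 0) (fun i' _ => Finset.sum_nonneg fun j' _ => hnn i' j')
        (Finset.mem_univ i)
    · rw [cf_off v S hS]
      simpa using Finset.sum_nonneg fun i _ => Finset.sum_nonneg fun j _ => hnn i j
  calc ∑ S, cf v S ^ 2 ≤ ∑ S : Finset (Fin n),
        ∑ i, ∑ j, (if S = {i, j} then 4 * (pp v i * pp v j) else 0) :=
        Finset.sum_le_sum fun S _ => h1 S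
    _ = ∑ i, ∑ j, ∑ S : Finset (Fin n), (if S = {i, j} then 4 * (pp v i * pp v j) else 0) := by
        rw [Finset.sum_comm]
        refine Finset.sum_congr rfl fun i _ => ?_
        rw [Finset.sum_comm]
    _ = ∑ i, ∑ j, 4 * (pp v i * pp v j) := by
        refine Finset.sum_congr rfl fun i _ => Finset.sum_congr rfl fun j _ => ?_
        rw [Finset.sum_ite_eq' Finset.univ ({i, j} : Finset (Fin n))]
        simp
    _ = 4 * (l : ℝ) ^ 2 := by
        simp only [← Finset.mul_sum]
        rw [← Finset.sum_mul, sum_pp v hv]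
        ring

end Pool.Agent.W503.KK
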