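import Pool.Agent.W503.KK.Sym

/-!
# Project KK: lower bound for the mean of the top eigenvalue at zero signal
-/

set_option autoImplicit false

namespace Pool.Agent.W503.KK

open MeasureTheory ProbabilityTheory

variable {n l : ℕ}

/-- mean absolute value of a standard Gaussian variable -/
noncomputable def c1 : ℝ := ∫ t, |t| ∂(gaussianReal 0 1)

theorem c1_pos : 0 < c1 := by
  have hint : Integrable (fun t : ℝ => |t|) (gaussianReal 0 1) := by
    have h := (memLp_id_gaussianReal' (μ := 0) (v := 1) (1 : ENNReal) (by norm_num))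
    exact (h.integrable le_rfl).abs
  rw [c1, integral_pos_iff_support_of_nonneg (fun _ => abs_nonneg _) hint]
  have hsupp : Function.support (fun t : ℝ => |t|) = {0}ᶜ := by
    ext t; simp
  rw [hsupp]
  have h0 : gaussianReal 0 1 {(0:ℝ)} = 0 := by
    have : NullSingletonClass (gaussianReal 0 1) :=
      nullSingletonClass_gaussianReal (by simp)
    exact measure_singleton 0
  rw [prob_compl_eq_one_sub (measurableSet_singleton _), h0]
  simp

/-- sign, equal to `1` at `0` -/
noncomputable def sg (t : ℝ) : ℝ := if 0 ≤ t then 1 else -1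

theorem sg_mul (t : ℝ) : sg t * t = |t| := by
  unfold sg
  split_ifs with h
  · rw [abs_of_nonneg h, one_mul]
  · rw [abs_of_neg (not_le.1 h)]; ring

theorem sg_sq (t : ℝ) : sg t * sg t = 1 := by
  unfold sg
  split_ifs <;> norm_num

section tv

variable (K0 : Finset (Fin n)) (i0 : Fin n) (hi0 : i0 ∉ K0) (hK : K0.card + 1 = l)
  (a : ℝ) (s : Fin n → ℝ)

/-- test vector as a function on all finite sets -/
noncomputable def tvF (S : Finset (Fin n)) : ℝ :=
  (if S = insert i0 K0 then a else 0) +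
    ∑ j ∈ (insert i0 K0)ᶜ, if S = insert j K0 then s j else 0

theorem sum_single (S0 : Finset (Fin n)) (h0 : S0.card = l) (c : ℝ) (G : Finset (Fin n) → ℝ) :
    ∑ I : Ks n l, (if I.1 = S0 then c else 0) * G I.1 = c * G S0 := by
  rw [Finset.sum_eq_single (⟨S0, h0⟩ : Ks n l)]
  · simp
  · intro I _ hI
    rw [if_neg, zero_mul]
    intro h
    exact hI (Subtype.ext h)
  · intro h; exact absurd (Finset.mem_univ _) h

include hi0 hK in
theorem tv_sum (G : Finset (Fin n) → ℝ) :
    ∑ I : Ks n l, tvF K0 i0 a s I.1 * G I.1 =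
      a * G (insert i0 K0) + ∑ j ∈ (insert i0 K0)ᶜ, s j * G (insert j K0) := by
  simp only [tvF, add_mul, Finset.sum_add_distrib, Finset.sum_mul]
  congr 1
  · refine sum_single _ ?_ a G
    rw [Finset.card_insert_of_notMem hi0, hK]
  · rw [Finset.sum_comm]
    refine Finset.sum_congr rfl fun j hj => ?_
    refine sum_single _ ?_ (s j) G
    rw [Finset.mem_compl, Finset.mem_insert, not_or] at hj
    rw [Finset.card_insert_of_notMem hj.2, hK]

include hi0 in
theorem tv_i0 : tvF K0 i0 a s (insert i0 K0) = a := by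
  rw [tvF, if_pos rfl, Finset.sum_eq_zero, add_zero]
  intro j hj
  rw [Finset.mem_compl, Finset.mem_insert, not_or] at hj
  rw [if_neg]
  intro h
  have : i0 ∈ insert j K0 := h ▸ Finset.mem_insert_self i0 K0
  rcases Finset.mem_insert.1 this with h1 | h1
  · exact hj.1 h1.symm
  · exact hi0 h1

theorem tv_j (j : Fin n) (hj : j ∈ (insert i0 K0)ᶜ) : tvF K0 i0 a s (insert j K0) = s j := by
  have hj' := hj
  rw [Finset.mem_compl, Finset.mem_insert, not_or] at hj'
  rw [tvF, if_neg, zero_add, Finset.sum_eq_single j]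
  · rw [if_pos rfl]
  · intro k hk hkj
    rw [if_neg]
    intro h
    have : k ∈ insert j K0 := h ▸ Finset.mem_insert_self k K0
    rw [Finset.mem_compl, Finset.mem_insert, not_or] at hk
    rcases Finset.mem_insert.1 this with h1 | h1
    · exact hkj h1
    · exact hk.2 h1
  · intro h; exact absurd hj h
  · intro h
    have : j ∈ insert i0 K0 := h ▸ Finset.mem_insert_self j K0
    rcases Finset.mem_insert.1 this with h1 | h1
    · exact hj'.1 h1
    · exact hj'.2 h1

/-- matrix entries as functions of two sets -/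
noncomputable def ent (B : Finset (Fin n) → ℝ) (S T : Finset (Fin n)) : ℝ :=
  if (symmDiff S T).card = 2 then B (symmDiff S T) else 0

theorem sd_insert (j k : Fin n) (hj : j ∉ K0) (hk : k ∉ K0) (hjk : j ≠ k) :
    symmDiff (insert j K0) (insert k K0) = {j, k} := by
  ext t
  simp only [Finset.mem_symmDiff, Finset.mem_insert, Finset.mem_singleton]
  constructor
  · rintro (⟨h1, h2⟩ | ⟨h1, h2⟩)
    · push Not at h2
      rcases h1 with h1 | h1
      · exact Or.inl h1
      · exact absurd h1 h2.2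
    · push Not at h2
      rcases h1 with h1 | h1
      · exact Or.inr h1
      · exact absurd h1 h2.2
  · rintro (h | h)
    · subst h
      exact Or.inl ⟨Or.inl rfl, by push Not; exact ⟨hjk, hj⟩⟩
    · subst h
      exact Or.inr ⟨Or.inl rfl, by push Not; exact ⟨hjk.symm, hk⟩⟩

include hi0 hK in
theorem tv_qf (B : Finset (Fin n) → ℝ) (hB : ∀ S, i0 ∉ S → B S = 0) :
    qf B (fun I : Ks n l => tvF K0 i0 a s I.1) =
      2 * a * ∑ j ∈ (insert i0 K0)ᶜ, s j * B {i0, j} := by
  have e1 : ∀ S T, ent B S T = ent B T S := by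
    intro S T; rw [ent, ent, symmDiff_comm]
  have e2 : ∀ j ∈ (insert i0 K0)ᶜ, ent B (insert i0 K0) (insert j K0) = B {i0, j} := by
    intro j hj
    rw [Finset.mem_compl, Finset.mem_insert, not_or] at hj
    rw [ent, sd_insert K0 i0 j hi0 hj.2 (fun h => hj.1 h.symm), if_pos]
    exact Finset.card_pair (fun h => hj.1 h.symm)
  have e3 : ent B (insert i0 K0) (insert i0 K0) = 0 := by
    simp [ent]
  have e4 : ∀ j ∈ (insert i0 K0)ᶜ, ∀ k ∈ (insert i0 K0)ᶜ, ent B (insert j K0) (insert k K0) = 0 := by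
    intro j hj k hk
    rw [Finset.mem_compl, Finset.mem_insert, not_or] at hj hk
    rw [ent]
    split_ifs with h
    · apply hB
      rw [Finset.mem_symmDiff]
      rintro (⟨h1, _⟩ | ⟨h1, _⟩)
      · rcases Finset.mem_insert.1 h1 with h2 | h2
        · exact hj.1 h2.symm
        · exact hi0 h2
      · rcases Finset.mem_insert.1 h1 with h2 | h2
        · exact hk.1 h2.symm
        · exact hi0 h2
    · rfl
  have h1 : qf B (fun I : Ks n l => tvF K0 i0 a s I.1) =
      ∑ I : Ks n l, tvF K0 i0 a s I.1 *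
        (fun S => a * ent B S (insert i0 K0) + ∑ j ∈ (insert i0 K0)ᶜ, s j * ent B S (insert j K0)) I.1 := by
    rw [qf_sum]
    refine Finset.sum_congr rfl fun I _ => ?_
    rw [← Finset.mul_sum]
    congr 1
    have := tv_sum (l := l) K0 i0 hi0 hK a s (fun T => ent B I.1 T)
    simp only at this ⊢
    rw [← this]
    refine Finset.sum_congr rfl fun J _ => ?_
    simp only [Mt, Matrix.of_apply, ent]
    ring
  rw [h1, tv_sum (l := l) K0 i0 hi0 hK a s
    (fun S => a * ent B S (insert i0 K0) + ∑ j ∈ (insert i0 K0)ᶜ, s j * ent B S (insert j K0))]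
  simp only [e3, mul_zero, zero_add]
  have h2 : ∑ j ∈ (insert i0 K0)ᶜ, s j * ent B (insert i0 K0) (insert j K0) =
      ∑ j ∈ (insert i0 K0)ᶜ, s j * B {i0, j} :=
    Finset.sum_congr rfl fun j hj => by rw [e2 j hj]
  have h3 : ∑ j ∈ (insert i0 K0)ᶜ, s j * (a * ent B (insert j K0) (insert i0 K0) +
      ∑ k ∈ (insert i0 K0)ᶜ, s k * ent B (insert j K0) (insert k K0)) =
      a * ∑ j ∈ (insert i0 K0)ᶜ, s j * B {i0, j} := by
    rw [Finset.mul_sum]
    refine Finset.sum_congr rfl fun j hj => ?_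
    rw [Finset.sum_eq_zero fun k hk => by rw [e4 j hj k hk, mul_zero], e1, e2 j hj]
    ring
  rw [h2, h3]
  ring

include hi0 hK in
theorem tv_norm (m : ℝ) (hm : ((insert i0 K0)ᶜ : Finset (Fin n)).card = m) (hm0 : 0 < m)
    (ha : a * a = 1 / 2) (hs : ∀ j, s j * s j = 1 / (2 * m)) :
    dotProduct (fun I : Ks n l => tvF K0 i0 a s I.1) (fun I : Ks n l => tvF K0 i0 a s I.1) = 1 := by
  have h := tv_sum (l := l) K0 i0 hi0 hK a s (tvF K0 i0 a s)
  simp only [dotProduct]
  rw [h, tv_i0 K0 i0 hi0, ha]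
  have h2 : ∑ j ∈ (insert i0 K0)ᶜ, s j * tvF K0 i0 a s (insert j K0) =
      ∑ j ∈ (insert i0 K0)ᶜ, 1 / (2 * m) :=
    Finset.sum_congr rfl fun j hj => by rw [tv_j K0 i0 a s j hj, hs]
  rw [h2, Finset.sum_const, nsmul_eq_mul, hm]
  field_simp
  ring

end tv

/-- pointwise lower bound -/
theorem two_top (K0 : Finset (Fin n)) (i0 : Fin n) (hi0 : i0 ∉ K0) (hK : K0.card + 1 = l)
    (m : ℝ) (hm : ((insert i0 K0)ᶜ : Finset (Fin n)).card = m) (hm0 : 0 < m)
    (A : Finset (Fin n) → ℝ) :
    2 * (∑ j ∈ (insert i0 K0)ᶜ, |A {i0, j}|) / Real.sqrt m ≤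
      top n l A + top n l (fun S => (if i0 ∈ S then 1 else -1) * A S) := by
  have hsm : 0 < Real.sqrt m := Real.sqrt_pos.2 hm0
  have hsm2 : Real.sqrt m * Real.sqrt m = m := Real.mul_self_sqrt hm0.le
  have hs2 : Real.sqrt 2 * Real.sqrt 2 = 2 := Real.mul_self_sqrt (by norm_num)
  have hs20 : 0 < Real.sqrt 2 := Real.sqrt_pos.2 (by norm_num)
  set a : ℝ := 1 / Real.sqrt 2 with ha
  set s : Fin n → ℝ := fun j => sg (A {i0, j}) / (Real.sqrt 2 * Real.sqrt m) with hs
  have haa : a * a = 1 / 2 := by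
    rw [ha, div_mul_div_comm, hs2]; norm_num
  have hss : ∀ j, s j * s j = 1 / (2 * m) := by
    intro j
    rw [hs]
    simp only
    rw [div_mul_div_comm, sg_sq]
    congr 1
    calc Real.sqrt 2 * Real.sqrt m * (Real.sqrt 2 * Real.sqrt m) =
        (Real.sqrt 2 * Real.sqrt 2) * (Real.sqrt m * Real.sqrt m) := by ring
      _ = _ := by rw [hs2, hsm2]
  have hnorm := tv_norm (l := l) K0 i0 hi0 hK a s m hm hm0 haa hss
  set v : Ks n l → ℝ := fun I => tvF K0 i0 a s I.1 with hv
  set A' : Finset (Fin n) → ℝ := fun S => (if i0 ∈ S then 1 else -1) * A S with hA'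
  have h1 := le_top A v hnorm
  have h2 := le_top A' v hnorm
  have h3 := qf_add A A' v
  have h4 : qf (A + A') v = 2 * a * ∑ j ∈ (insert i0 K0)ᶜ, s j * (A + A') {i0, j} := by
    refine tv_qf (l := l) K0 i0 hi0 hK a s (A + A') ?_
    intro S hS
    simp only [Pi.add_apply, hA', if_neg hS]
    ring
  have h5 : 2 * a * ∑ j ∈ (insert i0 K0)ᶜ, s j * (A + A') {i0, j} =
      2 * (∑ j ∈ (insert i0 K0)ᶜ, |A {i0, j}|) / Real.sqrt m := by
    rw [Finset.mul_sum, Finset.mul_sum, Finset.sum_div]
    refine Finset.sum_congr rfl fun j _ => ?_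
    have hmem : i0 ∈ ({i0, j} : Finset (Fin n)) := Finset.mem_insert_self _ _
    simp only [Pi.add_apply, hA', if_pos hmem]
    rw [← sg_mul (A {i0, j}), ha, hs]
    simp only
    field_simp
    have : Real.sqrt 2 ^ 2 = 2 := Real.sq_sqrt (by norm_num)
    rw [this]
    ring
  linarith

/-- lower bound for the mean -/
theorem mean_lower (K0 : Finset (Fin n)) (i0 : Fin n) (hi0 : i0 ∉ K0) (hK : K0.card + 1 = l)
    (m : ℝ) (hm : ((insert i0 K0)ᶜ : Finset (Fin n)).card = m) (hm0 : 0 < m) :
    c1 * Real.sqrt m ≤ ∫ z, top n l z ∂(GG (Finset (Fin n))) := by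
  have : Nonempty (Ks n l) := ⟨⟨insert i0 K0, by rw [Finset.card_insert_of_notMem hi0, hK]⟩⟩
  have hsm : 0 < Real.sqrt m := Real.sqrt_pos.2 hm0
  have hsm2 : Real.sqrt m * Real.sqrt m = m := Real.mul_self_sqrt hm0.le
  have hint : Integrable (top n l) (GG (Finset (Fin n))) := top_memLp.integrable (by norm_num)
  set s : Finset (Fin n) → ℝ := fun S => if i0 ∈ S then 1 else -1 with hs
  have hss : ∀ S, s S * s S = 1 := by
    intro S
    rw [hs]
    simp only
    split_ifs <;> norm_num
  have hflip := int_flip (Finset (Fin n)) s hss (top n l) top_cont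
  have hint2 : Integrable (fun z : Finset (Fin n) → ℝ => top n l (fun S => s S * z S))
      (GG (Finset (Fin n))) := by
    have h := flip_mp (Finset (Fin n)) s hss
    exact h.integrable_comp_of_integrable hint
  have habs : ∀ S : Finset (Fin n), Integrable (fun z : Finset (Fin n) → ℝ => |z S|)
      (GG (Finset (Fin n))) := fun S => ((memLp_eval _ S).integrable (by norm_num)).abs
  have hc : ∀ S : Finset (Fin n), ∫ z : Finset (Fin n) → ℝ, |z S| ∂(GG (Finset (Fin n))) = c1 := by
    intro S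
    have := integral_comp_eval (μ := fun _ : Finset (Fin n) => gaussianReal 0 1) (i := S)
      (f := fun t : ℝ => |t|) (by fun_prop)
    exact this
  have h1 : ∫ z : Finset (Fin n) → ℝ, 2 * (∑ j ∈ (insert i0 K0)ᶜ, |z {i0, j}|) / Real.sqrt m
      ∂(GG (Finset (Fin n))) ≤ ∫ z : Finset (Fin n) → ℝ, (top n l z + top n l (fun S => s S * z S))
      ∂(GG (Finset (Fin n))) := by
    refine integral_mono ?_ (hint.add hint2) fun z => ?_
    · refine Integrable.div_const ?_ _
      refine Integrable.const_mul ?_ _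
      exact integrable_finsetSum _ fun j _ => habs _
    · exact two_top K0 i0 hi0 hK m hm hm0 z
  rw [integral_add hint hint2, hflip, integral_div, integral_const_mul,
    integral_finsetSum _ (fun j _ => habs _)] at h1
  simp only [hc, Finset.sum_const, nsmul_eq_mul, hm] at h1
  have h2 : 2 * (m * c1) / Real.sqrt m = 2 * (c1 * Real.sqrt m) := by
    rw [div_eq_iff hsm.ne']
    calc 2 * (m * c1) = 2 * c1 * m := by ring
      _ = 2 * c1 * (Real.sqrt m * Real.sqrt m) := by rw [hsm2]
      _ = _ := by ring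
  rw [h2] at h1
  linarith

/-- lower bound for the mean, with `n` and `l` only -/
theorem mean_lower' (hl : 1 ≤ l) (hn : l < n) :
    c1 * Real.sqrt ((n : ℝ) - l) ≤ ∫ z, top n l z ∂(GG (Finset (Fin n))) := by
  set i0 : Fin n := ⟨l - 1, by omega⟩ with hi0
  set K0 : Finset (Fin n) := Finset.univ.filter (fun i => i.1 < l - 1) with hK0
  have hmem : i0 ∉ K0 := by simp [hK0, hi0]
  have hcard : K0.card = l - 1 := by
    have : K0 = Finset.Iio i0 := by
      ext i; simp [hK0, hi0, Fin.lt_def]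
    rw [this, Fin.card_Iio]
  have hcc : ((insert i0 K0)ᶜ : Finset (Fin n)).card = (n : ℝ) - l := by
    rw [Finset.card_compl, Finset.card_insert_of_notMem hmem, hcard, Fintype.card_fin]
    have : l - 1 + 1 = l := by omega
    rw [this, Nat.cast_sub hn.le]
  have hpos : (0:ℝ) < (n : ℝ) - l := by
    have : (l:ℝ) < n := by exact_mod_cast hn
    linarith
  exact mean_lower K0 i0 hmem (by omega) _ hcc hpos

end Pool.Agent.W503.KK
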