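import Mathlib

/-!
# Project KK: the Kikuchi matrix for `r = 2` (MP_d47e08_pr, frozen statement S19664)

Statements of the parts.  The planted law has bounded second moment with respect to the null law,
and the top eigenvalue has small variance under the null law, so its mean moves by `O(n^(1/4))` only.
-/

set_option autoImplicit false

namespace Pool.Agent.W503.KK

open MeasureTheory ProbabilityTheory

/-- the standard Gaussian measure on functions on a finite type -/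
noncomputable abbrev GG (ι : Type) [Fintype ι] : Measure (ι → ℝ) :=
  Measure.pi fun _ => gaussianReal 0 1

/-- eighth moment of the standard Gaussian law (only its finiteness matters) -/
noncomputable def m8 : ℝ := ∫ x, x ^ 8 ∂(gaussianReal 0 1)

/-- KK-CM: Cameron-Martin formula; no condition on `F` -/
def S_CM : Prop := ∀ (ι : Type) [Fintype ι] (a : ι → ℝ) (F : (ι → ℝ) → ℝ),
  ∫ z, F (fun i => z i + a i) ∂(GG ι) =
    ∫ z, F z * Real.exp (∑ i, (a i * z i - a i ^ 2 / 2)) ∂(GG ι)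

/-- KK-MGF: exponential moments -/
def S_MGF : Prop := ∀ (ι : Type) [Fintype ι] (a : ι → ℝ),
  Integrable (fun z : ι → ℝ => Real.exp (∑ i, a i * z i)) (GG ι) ∧
  ∫ z, Real.exp (∑ i, a i * z i) ∂(GG ι) = Real.exp (∑ i, a i ^ 2 / 2)

/-- KK-VAR: variance of a function with sparse one-sided differences (Efron-Stein) -/
def S_VAR : Prop := ∀ (ι : Type) [Fintype ι] [DecidableEq ι] (A : Finset ι) (F : (ι → ℝ) → ℝ)
  (K : ℝ), Continuous F → (∀ z, 0 ≤ F z) → (∃ C : ℝ, ∀ z, F z ≤ C * (1 + ∑ i, |z i|)) →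
  (∀ z, ∃ c : ι → ℝ, (∀ i, i ∉ A → c i = 0) ∧ ∑ i, c i ^ 2 ≤ K ∧
    ∀ i t, F z - F (Function.update z i t) ≤ |c i| * |z i - t|) →
  ∀ T : ℝ, 0 < T →
  ∫ z, (F z - ∫ w, F w ∂(GG ι)) ^ 2 ∂(GG ι) ≤ K * (1 + T + A.card * m8 / T ^ 3)

/-- KK-RAD: Rademacher sums -/
def S_RAD : Prop := ∀ n : ℕ, 1 ≤ n →
  (1 / 2 ^ n : ℝ) * ∑ x : Fin n → Bool,
    Real.exp ((∑ i, (if x i then (1:ℝ) else -1)) ^ 2 / (8 * n)) ≤ 2

end Pool.Agent.W503.KK
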