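import Pool.Agent.W503.KK.Top

/-!
# Project KK: symmetry under sign flips, integrability
-/

set_option autoImplicit false

namespace Pool.Agent.W503.KK

open MeasureTheory ProbabilityTheory

variable {n l : ℕ}

/-- signs -/
noncomputable def sgb (b : Bool) : ℝ := if b then 1 else -1

theorem sgb_sq (b : Bool) : sgb b * sgb b = 1 := by cases b <;> simp [sgb]

noncomputable def chi (x : Fin n → Bool) (S : Finset (Fin n)) : ℝ := ∏ i ∈ S, sgb (x i)

theorem chi_sq (x : Fin n → Bool) (S : Finset (Fin n)) : chi x S * chi x S = 1 := by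
  rw [chi, ← Finset.prod_mul_distrib]
  exact Finset.prod_eq_one fun i _ => sgb_sq _

theorem chi_symmDiff (x : Fin n → Bool) (S T : Finset (Fin n)) :
    chi x (symmDiff S T) = chi x S * chi x T := by
  classical
  have h1 : chi x S = chi x (S \ T) * chi x (S ∩ T) := by
    rw [chi, chi, chi, ← Finset.prod_union (Finset.disjoint_sdiff_inter S T),
      Finset.sdiff_union_inter]
  have h2 : chi x T = chi x (T \ S) * chi x (S ∩ T) := by
    rw [Finset.inter_comm, chi, chi, chi, ← Finset.prod_union (Finset.disjoint_sdiff_inter T S),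
      Finset.sdiff_union_inter]
  have h3 : chi x (symmDiff S T) = chi x (S \ T) * chi x (T \ S) := by
    rw [chi, chi, chi, ← Finset.prod_union disjoint_sdiff_sdiff]
    rfl
  rw [h1, h2, h3]
  have := chi_sq x (S ∩ T)
  calc chi x (S \ T) * chi x (T \ S) = chi x (S \ T) * chi x (T \ S) * (chi x (S ∩ T) * chi x (S ∩ T)) := by
        rw [this, mul_one]
    _ = _ := by ring

theorem top_chi_le (x : Fin n → Bool) [Nonempty (Ks n l)] (A : Finset (Fin n) → ℝ) :
    top n l (fun S => chi x S * A S) ≤ top n l A := by
  obtain ⟨v, hv, h⟩ := exists_top (l := l) (fun S => chi x S * A S)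
  rw [← h]
  have h1 : dotProduct (fun I : Ks n l => chi x I.1 * v I) (fun I : Ks n l => chi x I.1 * v I) = 1 := by
    rw [← hv]
    simp only [dotProduct]
    refine Finset.sum_congr rfl fun I _ => ?_
    have := chi_sq x I.1
    calc chi x I.1 * v I * (chi x I.1 * v I) = (chi x I.1 * chi x I.1) * (v I * v I) := by ring
      _ = _ := by rw [this, one_mul]
  refine le_trans (le_of_eq ?_) (le_top A (fun I => chi x I.1 * v I) h1)
  rw [qf_sum, qf_sum]
  refine Finset.sum_congr rfl fun I _ => Finset.sum_congr rfl fun J _ => ?_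
  simp only [Mt, Matrix.of_apply]
  split_ifs
  · rw [chi_symmDiff]; ring
  · ring

theorem top_chi (x : Fin n → Bool) [Nonempty (Ks n l)] (A : Finset (Fin n) → ℝ) :
    top n l (fun S => chi x S * A S) = top n l A := by
  refine le_antisymm (top_chi_le x A) ?_
  have h := top_chi_le (l := l) x (fun S => chi x S * A S)
  have e : (fun S => chi x S * (chi x S * A S)) = A := by
    funext S
    rw [← mul_assoc, chi_sq, one_mul]
  rw [e] at h
  exact h

theorem top_congr (A B : Finset (Fin n) → ℝ) (h : ∀ S, S.card = 2 → A S = B S) :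
    top n l A = top n l B := by
  have : (Mt A : Matrix (Ks n l) (Ks n l) ℝ) = Mt B := by
    ext I J
    simp only [Mt, Matrix.of_apply]
    split_ifs with h1
    · exact h _ h1
    · rfl
  simp only [top, qf, this]

/-- the Gaussian measure is invariant under sign flips -/
theorem flip_mp (ι : Type) [Fintype ι] (s : ι → ℝ) (hs : ∀ i, s i * s i = 1) :
    MeasurePreserving (fun (z : ι → ℝ) i => s i * z i) (GG ι) (GG ι) := by
  refine measurePreserving_pi (fun _ : ι => gaussianReal 0 1) (fun _ : ι => gaussianReal 0 1)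
    (f := fun i t => s i * t) (fun i => ⟨by fun_prop, ?_⟩)
  rw [gaussianReal_map_const_mul]
  congr 1
  · simp
  · ext
    simp [sq, hs i]

theorem int_flip (ι : Type) [Fintype ι] (s : ι → ℝ) (hs : ∀ i, s i * s i = 1)
    (F : (ι → ℝ) → ℝ) (hF : Continuous F) :
    ∫ z, F (fun i => s i * z i) ∂(GG ι) = ∫ z, F z ∂(GG ι) := by
  have h := flip_mp ι s hs
  conv_rhs => rw [← h.map_eq]
  rw [integral_map h.measurable.aemeasurable hF.aestronglyMeasurable]

/-- Expected value at any rank-one signal is the same. -/
theorem int_signal [Nonempty (Ks n l)] (x : Fin n → Bool) (lam : ℝ) :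
    ∫ z, top n l (fun S => z S + (if S.card = 2 then lam * chi x S else 0)) ∂(GG (Finset (Fin n))) =
    ∫ z, top n l (fun S => lam + z S) ∂(GG (Finset (Fin n))) := by
  have h := int_flip (Finset (Fin n)) (chi x) (chi_sq x) (fun z => top n l (fun S => lam + z S))
    (top_cont.comp (by fun_prop))
  rw [← h]
  congr 1
  funext z
  rw [← top_chi x (fun S => lam + chi x S * z S)]
  refine top_congr _ _ fun S hS => ?_
  rw [if_pos hS]
  have := chi_sq x S
  calc z S + lam * chi x S = (chi x S * chi x S) * z S + lam * chi x S := by rw [this, one_mul]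
    _ = _ := by ring

theorem memLp_eval (ι : Type) [Fintype ι] (i : ι) : MemLp (fun z : ι → ℝ => z i) 2 (GG ι) := by
  have h := (memLp_id_gaussianReal' (μ := 0) (v := 1) (2 : ENNReal) (by norm_num))
  exact h.comp_measurePreserving (measurePreserving_eval (fun _ : ι => gaussianReal 0 1) i)

theorem memLp_growth (ι : Type) [Fintype ι] (C : ℝ) :
    MemLp (fun z : ι → ℝ => C * (1 + ∑ i, |z i|)) 2 (GG ι) := by
  refine MemLp.const_mul ?_ C
  refine MemLp.add (memLp_const 1) ?_
  exact memLp_finsetSum Finset.univ fun i _ => (memLp_eval ι i).abs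

theorem top_memLp [Nonempty (Ks n l)] : MemLp (top n l) 2 (GG (Finset (Fin n))) := by
  refine MemLp.mono (memLp_growth _ (Fintype.card (Ks n l))) top_cont.aestronglyMeasurable ?_
  refine Filter.Eventually.of_forall fun z => ?_
  rw [Real.norm_of_nonneg (top_nonneg z)]
  exact (top_growth z).trans (le_abs_self _)

end Pool.Agent.W503.KK
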