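import Pool.Agent.W503.KK.Stm

/-!
# Project KK: the top eigenvalue of the Kikuchi matrix for `r = 2`
-/

set_option autoImplicit false

namespace Pool.Agent.W503.KK

open MeasureTheory ProbabilityTheory

abbrev Ks (n l : ℕ) := {K : Finset (Fin n) // K.card = l}

noncomputable def Mt {n l : ℕ} (A : Finset (Fin n) → ℝ) : Matrix (Ks n l) (Ks n l) ℝ :=
  Matrix.of fun I J => if (symmDiff I.1 J.1).card = 2 then A (symmDiff I.1 J.1) else 0

noncomputable def qf {n l : ℕ} (A : Finset (Fin n) → ℝ) (v : Ks n l → ℝ) : ℝ :=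
  dotProduct v (Matrix.mulVec (Mt A) v)

noncomputable def top (n l : ℕ) (A : Finset (Fin n) → ℝ) : ℝ :=
  sSup {t : ℝ | ∃ v : Ks n l → ℝ, dotProduct v v = 1 ∧ t = qf A v}

/-- coefficient of `A S` in the quadratic form -/
noncomputable def cf {n l : ℕ} (v : Ks n l → ℝ) (S : Finset (Fin n)) : ℝ :=
  ∑ I, ∑ J, if symmDiff I.1 J.1 = S ∧ S.card = 2 then v I * v J else 0

variable {n l : ℕ}

theorem qf_sum (A : Finset (Fin n) → ℝ) (v : Ks n l → ℝ) :
    qf A v = ∑ I, ∑ J, v I * (Mt A I J * v J) := by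
  simp only [qf, dotProduct, Matrix.mulVec, Finset.mul_sum]

theorem qf_eq (A : Finset (Fin n) → ℝ) (v : Ks n l → ℝ) : qf A v = ∑ S, A S * cf v S := by
  rw [qf_sum]
  simp only [cf, Finset.mul_sum]
  symm
  rw [Finset.sum_comm]
  refine Finset.sum_congr rfl fun I _ => ?_
  rw [Finset.sum_comm]
  refine Finset.sum_congr rfl fun J _ => ?_
  rw [Finset.sum_eq_single (symmDiff I.1 J.1)]
  · simp only [Mt, Matrix.of_apply, true_and]
    split_ifs <;> ring
  · intro S _ hS
    rw [if_neg (fun h => hS h.1.symm), mul_zero]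
  · intro h; exact absurd (Finset.mem_univ _) h

theorem qf_add (A B : Finset (Fin n) → ℝ) (v : Ks n l → ℝ) :
    qf (A + B) v = qf A v + qf B v := by
  simp only [qf_eq, Pi.add_apply, add_mul, Finset.sum_add_distrib]

theorem qf_sub (A B : Finset (Fin n) → ℝ) (v : Ks n l → ℝ) :
    qf A v - qf B v = ∑ S, (A S - B S) * cf v S := by
  simp only [qf_eq, sub_mul, Finset.sum_sub_distrib]

theorem cf_off (v : Ks n l → ℝ) (S : Finset (Fin n)) (hS : S.card ≠ 2) : cf v S = 0 := by
  simp only [cf]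
  refine Finset.sum_eq_zero fun I _ => Finset.sum_eq_zero fun J _ => ?_
  rw [if_neg fun h => hS h.2]

theorem sum_abs_cf (v : Ks n l → ℝ) : ∑ S, |cf v S| ≤ (∑ I, |v I|) ^ 2 := by
  calc ∑ S, |cf v S| ≤ ∑ S, ∑ I, ∑ J, (if symmDiff I.1 J.1 = S ∧ S.card = 2 then
        |v I| * |v J| else 0) := by
        refine Finset.sum_le_sum fun S _ => ?_
        refine (Finset.abs_sum_le_sum_abs _ _).trans (Finset.sum_le_sum fun I _ => ?_)
        refine (Finset.abs_sum_le_sum_abs _ _).trans (Finset.sum_le_sum fun J _ => ?_)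
        split_ifs
        · rw [abs_mul]
        · simp
    _ = ∑ I, ∑ J, ∑ S, (if symmDiff I.1 J.1 = S ∧ S.card = 2 then |v I| * |v J| else 0) := by
        rw [Finset.sum_comm]
        refine Finset.sum_congr rfl fun I _ => ?_
        rw [Finset.sum_comm]
    _ ≤ ∑ I, ∑ J, |v I| * |v J| := by
        refine Finset.sum_le_sum fun I _ => Finset.sum_le_sum fun J _ => ?_
        rw [Finset.sum_eq_single (symmDiff I.1 J.1)]
        · split_ifs
          · exact le_rfl
          · positivity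
        · intro S _ hS
          rw [if_neg (fun h => hS h.1.symm)]
        · intro h; exact absurd (Finset.mem_univ _) h
    _ = (∑ I, |v I|) ^ 2 := by
        rw [sq, Finset.sum_mul_sum]

theorem sum_abs_sq (v : Ks n l → ℝ) (hv : dotProduct v v = 1) :
    (∑ I, |v I|) ^ 2 ≤ Fintype.card (Ks n l) := by
  have h := Finset.sum_mul_sq_le_sq_mul_sq (Finset.univ : Finset (Ks n l)) (fun _ => (1:ℝ))
    (fun I => |v I|)
  simp only [one_mul, one_pow, Finset.sum_const, Finset.card_univ, nsmul_eq_mul, mul_one,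
    sq_abs] at h
  have h2 : ∑ I, v I ^ 2 = 1 := by
    rw [← hv]; simp [dotProduct, sq]
  rw [h2, mul_one] at h
  exact h

theorem abs_cf_le (v : Ks n l → ℝ) (hv : dotProduct v v = 1) (S : Finset (Fin n)) :
    |cf v S| ≤ Fintype.card (Ks n l) :=
  (Finset.single_le_sum (f := fun S => |cf v S|) (fun _ _ => abs_nonneg _)
    (Finset.mem_univ S)).trans ((sum_abs_cf v).trans (sum_abs_sq v hv))

theorem abs_sum_cf_le (v : Ks n l → ℝ) (hv : dotProduct v v = 1) (B : Finset (Fin n) → ℝ) :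
    |∑ S, B S * cf v S| ≤ Fintype.card (Ks n l) * ∑ S, |B S| := by
  refine (Finset.abs_sum_le_sum_abs _ _).trans ?_
  rw [Finset.mul_sum]
  refine Finset.sum_le_sum fun S _ => ?_
  rw [abs_mul, mul_comm]
  exact mul_le_mul_of_nonneg_right (abs_cf_le v hv S) (abs_nonneg _)

theorem bdd (A : Finset (Fin n) → ℝ) :
    BddAbove {t : ℝ | ∃ v : Ks n l → ℝ, dotProduct v v = 1 ∧ t = qf A v} := by
  refine ⟨Fintype.card (Ks n l) * ∑ S, |A S|, ?_⟩
  rintro t ⟨v, hv, rfl⟩
  rw [qf_eq]
  exact (le_abs_self _).trans (abs_sum_cf_le v hv A)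

theorem le_top (A : Finset (Fin n) → ℝ) (v : Ks n l → ℝ) (hv : dotProduct v v = 1) :
    qf A v ≤ top n l A := le_csSup (bdd A) ⟨v, hv, rfl⟩

theorem exists_top [Nonempty (Ks n l)] (A : Finset (Fin n) → ℝ) :
    ∃ v : Ks n l → ℝ, dotProduct v v = 1 ∧ qf A v = top n l A := by
  classical
  have hcomp : IsCompact {v : Ks n l → ℝ | dotProduct v v = 1} := by
    refine Metric.isCompact_of_isClosed_isBounded ?_ ?_
    · exact isClosed_eq (by unfold dotProduct; fun_prop) continuous_const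
    · rw [isBounded_iff_forall_norm_le]
      refine ⟨1, fun v hv => ?_⟩
      rw [pi_norm_le_iff_of_nonneg zero_le_one]
      intro I
      have h : v I * v I ≤ 1 := by
        have hv' : dotProduct v v = 1 := hv
        rw [← hv']
        exact Finset.single_le_sum (f := fun I => v I * v I) (fun _ _ => mul_self_nonneg _)
          (Finset.mem_univ I)
      rw [Real.norm_eq_abs]
      exact abs_le_one_iff_mul_self_le_one.2 h
  have hne : {v : Ks n l → ℝ | dotProduct v v = 1}.Nonempty := by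
    obtain ⟨I⟩ := ‹Nonempty (Ks n l)›
    exact ⟨Pi.single I 1, by simp⟩
  have hcont : Continuous fun v : Ks n l → ℝ => qf A v := by
    simp only [qf_sum]
    fun_prop
  obtain ⟨v, hv, hmax⟩ := hcomp.exists_isMaxOn hne hcont.continuousOn
  refine ⟨v, hv, le_antisymm (le_top A v hv) ?_⟩
  refine csSup_le ⟨_, v, hv, rfl⟩ ?_
  rintro t ⟨w, hw, rfl⟩
  exact hmax hw

theorem top_nonneg [Nonempty (Ks n l)] (A : Finset (Fin n) → ℝ) : 0 ≤ top n l A := by
  classical
  obtain ⟨I⟩ := ‹Nonempty (Ks n l)›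
  have h := le_top A (Pi.single I 1 : Ks n l → ℝ) (by simp)
  have h2 : qf A (Pi.single I 1 : Ks n l → ℝ) = 0 := by
    simp [qf, Mt]
  linarith

theorem top_sub [Nonempty (Ks n l)] (A : Finset (Fin n) → ℝ) :
    ∃ v : Ks n l → ℝ, dotProduct v v = 1 ∧ ∀ B, top n l A - top n l B ≤
      ∑ S, (A S - B S) * cf v S := by
  obtain ⟨v, hv, h⟩ := exists_top (l := l) A
  refine ⟨v, hv, fun B => ?_⟩
  rw [← qf_sub, h]
  linarith [le_top B v hv]

theorem top_lip [Nonempty (Ks n l)] (A B : Finset (Fin n) → ℝ) :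
    |top n l A - top n l B| ≤ Fintype.card (Ks n l) * ∑ S, |A S - B S| := by
  rw [abs_le]
  constructor
  · obtain ⟨v, hv, h⟩ := top_sub (l := l) B
    have := (h A).trans ((le_abs_self _).trans (abs_sum_cf_le v hv fun S => B S - A S))
    have e : ∑ S, |B S - A S| = ∑ S, |A S - B S| :=
      Finset.sum_congr rfl fun S _ => abs_sub_comm _ _
    rw [e] at this
    linarith
  · obtain ⟨v, hv, h⟩ := top_sub (l := l) A
    exact (h B).trans ((le_abs_self _).trans (abs_sum_cf_le v hv fun S => A S - B S))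

theorem top_cont [Nonempty (Ks n l)] : Continuous (top n l) := by
  rw [continuous_iff_continuousAt]
  intro A
  rw [ContinuousAt, tendsto_iff_norm_sub_tendsto_zero]
  have h : Filter.Tendsto (fun B : Finset (Fin n) → ℝ =>
      (Fintype.card (Ks n l) : ℝ) * ∑ S, |B S - A S|) (nhds A) (nhds 0) := by
    have hc : Continuous fun B : Finset (Fin n) → ℝ =>
      (Fintype.card (Ks n l) : ℝ) * ∑ S, |B S - A S| := by fun_prop
    have := hc.tendsto A
    simpa using this
  refine squeeze_zero (fun _ => norm_nonneg _) (fun B => ?_) h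
  rw [Real.norm_eq_abs]
  exact top_lip B A

theorem top_growth [Nonempty (Ks n l)] (A : Finset (Fin n) → ℝ) :
    top n l A ≤ Fintype.card (Ks n l) * (1 + ∑ S, |A S|) := by
  obtain ⟨v, hv, h⟩ := exists_top (l := l) A
  rw [← h, qf_eq]
  have := (le_abs_self _).trans (abs_sum_cf_le v hv A)
  have h0 : (0:ℝ) ≤ Fintype.card (Ks n l) := by positivity
  linarith

end Pool.Agent.W503.KK
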